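import Pool.Agent.Helper16.CY.Arc

/-!
# CY-4: two coprime forms vanish at finitely many arcs of a family with many tangent directions
-/

set_option autoImplicit false

namespace Pool.Agent.Helper63.CY

open MvPolynomial

/-- CY-4. -/
theorem fin_of_jets {k : Type*} [Field k] {ι : Type*} [Infinite k] (X : ι → Fin 4 → PowerSeries k)
    (h0 : ∀ i, X i 0 = 1) (hX : ∀ i j, j ≠ 0 → PowerSeries.constantCoeff (X i j) = 0)
    (a b r : Fin 4) (ha0 : a ≠ 0) (hb0 : b ≠ 0) (hr0 : r ≠ 0) (hab : a ≠ b) (har : a ≠ r)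
    (hbr : b ≠ r) (e : k) (he : e ≠ 0) (ha : ∀ i, PowerSeries.coeff 1 (X i a) = e)
    (hb : ∀ v, {i | PowerSeries.coeff 1 (X i b) = v}.Finite)
    (G1 G2 : MvPolynomial (Fin 4) k) (e1 e2 : ℕ) (hG1 : G1.IsHomogeneous e1)
    (hG2 : G2.IsHomogeneous e2) (h12 : IsRelPrime G1 G2) :
    {i | aeval (X i) G1 = 0 ∧ aeval (X i) G2 = 0}.Finite := by
  refine Pool.Agent.Helper16.CY.fin_arc hG1 hG2 h12 (z := 0) (a := a) (b := b) (d := r)
    (Ne.symm ha0) (Ne.symm hb0) (Ne.symm hr0) hab har hbr X ?_ (fun i => hX i a ha0)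
    (fun i => hX i b hb0) ?_ ?_
  · intro i
    rw [h0, map_one]
    exact one_ne_zero
  · intro i
    rw [ha]
    exact he
  · intro κ
    refine (hb (κ * e)).subset fun i hi => ?_
    simp only [Set.mem_ofPred_eq] at hi ⊢
    rw [hi, ha]

end Pool.Agent.Helper63.CY
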