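import Pool.Agent.Helper63.NPD.ZPts

/-!
# CY-6a: curves `u ^ 2 = q(s)` have infinitely many points after a finite extension
-/

set_option autoImplicit false

namespace Pool.Agent.Helper63.CY

universe u

/-- CY-6a, universe polymorphic. -/
theorem exists_points' {K : Type u} [Field K] [NumberField K] (q : Polynomial K)
    (hq : q.Separable) (h1 : 1 ≤ q.natDegree) (h4 : q.natDegree ≤ 4) :
    ∃ (L : Type u) (_ : Field L) (_ : Algebra K L), FiniteDimensional K L ∧
      {p : L × L | p.2 ^ 2 = Polynomial.aeval p.1 q}.Infinite := by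
  classical
  obtain ⟨L, iL, aL, hfin, hL⟩ := Pool.Agent.Helper63.NPD.exists_points K q hq h1 h4
  refine ⟨L, iL, aL, hfin, fun hf => ?_⟩
  have hint : ∀ s : L, IsIntegral K s := fun s => Algebra.IsIntegral.isIntegral s
  let N : Polynomial K := ∏ p ∈ hf.toFinset, minpoly K p.1
  have hN : N ≠ 0 := Finset.prod_ne_zero_iff.mpr fun p _ => minpoly.ne_zero (hint p.1)
  obtain ⟨s, u, hsu, hs⟩ := hL N hN
  apply hs
  have hmem : (s, u) ∈ hf.toFinset := hf.mem_toFinset.mpr hsu
  show Polynomial.aeval s (∏ p ∈ hf.toFinset, minpoly K p.1) = 0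
  rw [map_prod]
  exact Finset.prod_eq_zero hmem (minpoly.aeval K s)

/-- CY-6a. -/
theorem exists_points (K : Type) [Field K] [NumberField K] (q : Polynomial K) (hq : q.Separable)
    (h1 : 1 ≤ q.natDegree) (h4 : q.natDegree ≤ 4) :
    ∃ (L : Type) (_ : Field L) (_ : Algebra K L), FiniteDimensional K L ∧
      {p : L × L | p.2 ^ 2 = Polynomial.aeval p.1 q}.Infinite :=
  exists_points' q hq h1 h4

end Pool.Agent.Helper63.CY
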